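import Pool.Agent.Run7.h619.PR.Iface

/-!
# Piece BASE of helper619's project PR: periodic orbits of the base with a prescribed pattern
-/

set_option autoImplicit false
set_option linter.unusedVariables false

open scoped Topology
open Filter Set Metric

universe u v w

namespace Run7.h903.PR
open Run7.h619.PR

section
variable {B : Type w} [MetricSpace B] {g : B → B} {π : ℕ} {z : ℤ → B} {ζ : Fin 2 → ℤ → B}

theorem per_mul (h : Loops g π z ζ) (i : ℤ) (n : ℕ) : z (i - (π : ℤ) * n) = z i := by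
  induction n with
  | zero => simp
  | succ n ih =>
    rw [← ih, ← h.per (i - (π : ℤ) * (n + 1 : ℕ))]
    congr 1
    push_cast
    ring

theorem per_mul' (h : Loops g π z ζ) (i : ℤ) (n : ℕ) : z (i + (π : ℤ) * n) = z i := by
  rw [← per_mul h (i + (π : ℤ) * n) n]
  congr 1
  ring

theorem z_fin (h : Loops g π z ζ) : (Set.range z).Finite := by
  have : Set.range z ⊆ (fun i : ℕ => z i) '' (Set.Iio π) := by
    rintro _ ⟨i, rfl⟩
    have hπ : (0 : ℤ) < π := by exact_mod_cast h.pos
    have h1 := Int.emod_add_mul_ediv i π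
    have h2 := Int.emod_nonneg i hπ.ne'
    have h3 := Int.emod_lt_of_pos i hπ
    refine ⟨(i % π).toNat, ?_, ?_⟩
    · simp only [Set.mem_Iio]; omega
    · show z ((i % π).toNat : ℤ) = z i
      rw [Int.toNat_of_nonneg h2]
      rcases le_or_gt 0 (i / π) with h4 | h4
      · conv_rhs => rw [← h1, ← Int.toNat_of_nonneg h4]
        rw [per_mul' h]
      · have h5 : 0 ≤ -(i / π) := by omega
        conv_rhs => rw [show i = i % π - π * (-(i / π)) by rw [mul_neg, sub_neg_eq_add]; exact h1.symm,
          ← Int.toNat_of_nonneg h5]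
        rw [per_mul h]
  exact (Set.Finite.image _ (Set.finite_Iio π)).subset this

/-- closeness of the orbits beyond `I` -/
theorem far (h : Loops g π z ζ) (ε : ℝ) (hε : 0 < ε) :
    ∃ I : ℕ, ∀ l, ∀ i : ℤ, (I : ℤ) ≤ |i| → dist (ζ l i) (z i) < ε := by
  have h1 : ∀ l, ∀ᶠ i : ℤ in atTop, dist (ζ l i) (z i) < ε := fun l => (h.top l).eventually (gt_mem_nhds hε)
  have h2 : ∀ l, ∀ᶠ i : ℤ in atBot, dist (ζ l i) (z i) < ε := fun l => (h.bot l).eventually (gt_mem_nhds hε)
  choose a ha using fun l => Filter.eventually_atTop.1 (h1 l)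
  choose b hb using fun l => Filter.eventually_atBot.1 (h2 l)
  refine ⟨(a 0).natAbs + (a 1).natAbs + (b 0).natAbs + (b 1).natAbs, fun l i hi => ?_⟩
  have hl : l = 0 ∨ l = 1 := by omega
  rcases abs_cases i with ⟨h3, h4⟩ | ⟨h3, h4⟩
  · apply ha
    rcases hl with rfl | rfl <;> omega
  · apply hb
    rcases hl with rfl | rfl <;> omega

/-- separation -/
theorem sep (h : Loops g π z ζ) : ∃ d : ℝ, 0 < d ∧ (∀ l i, d ≤ dist (z i) (ζ l 0)) ∧
    (∀ l i, i ≠ 0 → d ≤ dist (ζ l i) (ζ l 0)) ∧ (∀ l l' i, l ≠ l' → d ≤ dist (ζ l' i) (ζ l 0)) := by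
  classical
  have hz : ∀ l, ∃ d : ℝ, 0 < d ∧ ∀ i, d ≤ dist (z i) (ζ l 0) := by
    intro l
    have h1 : ζ l 0 ∈ (Set.range z)ᶜ := by
      rintro ⟨i, hi⟩; exact h.ne_z l i hi.symm
    have h2 : IsOpen (Set.range z)ᶜ := (z_fin h).isClosed.isOpen_compl
    obtain ⟨d, hd, hb⟩ := Metric.isOpen_iff.1 h2 _ h1
    refine ⟨d, hd, fun i => ?_⟩
    by_contra hc
    push Not at hc
    exact hb (Metric.mem_ball.2 hc) ⟨i, rfl⟩
  choose d hd hdz using hz
  obtain ⟨I, hI⟩ := far h (min (d 0) (d 1) / 2) (by have := hd 0; have := hd 1; positivity)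
  -- the finite set of the other points
  set F : Fin 2 → Set B := fun l => ((fun q : Fin 2 × ℤ => ζ q.1 q.2) ''
    {q | q ∈ (Set.univ : Set (Fin 2)) ×ˢ (Set.Icc (-(I : ℤ)) I) ∧ q ≠ (l, 0)}) with hF
  have hfin : ∀ l, (F l).Finite := by
    intro l
    apply Set.Finite.image
    exact ((Set.finite_univ.prod (Set.finite_Icc _ _)).subset (fun q hq => hq.1))
  have hne : ∀ l, ζ l 0 ∉ F l := by
    rintro l ⟨⟨l', i⟩, ⟨-, h2⟩, h3⟩
    simp only at h3
    by_cases hl : l = l'
    · subst hl
      have : i ≠ 0 := by rintro rfl; exact h2 rfl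
      exact h.ne_self l i this h3.symm
    · exact h.ne_other l l' i hl h3.symm
  have hs : ∀ l, ∃ e : ℝ, 0 < e ∧ ∀ y ∈ F l, e ≤ dist y (ζ l 0) := by
    intro l
    obtain ⟨e, he, hb⟩ := Metric.isOpen_iff.1 (hfin l).isClosed.isOpen_compl _ (hne l)
    refine ⟨e, he, fun y hy => ?_⟩
    by_contra hc
    push Not at hc
    exact hb (Metric.mem_ball.2 hc) hy
  choose e he hes using hs
  set D := min (min (d 0) (d 1) / 2) (min (e 0) (e 1)) with hD
  have hD0 : 0 < D := by
    have := hd 0; have := hd 1; have := he 0; have := he 1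
    apply lt_min
    · positivity
    · exact lt_min (by assumption) (by assumption)
  have hDd : ∀ l, D ≤ d l / 2 := by
    intro l
    have hl : l = 0 ∨ l = 1 := by omega
    have h1 := min_le_left (min (d 0) (d 1) / 2) (min (e 0) (e 1))
    have h2 := min_le_left (d 0) (d 1)
    have h3 := min_le_right (d 0) (d 1)
    rcases hl with rfl | rfl <;> (rw [hD]; linarith)
  have hDe : ∀ l, D ≤ e l := by
    intro l
    have hl : l = 0 ∨ l = 1 := by omega
    have h1 := min_le_right (min (d 0) (d 1) / 2) (min (e 0) (e 1))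
    have h2 := min_le_left (e 0) (e 1)
    have h3 := min_le_right (e 0) (e 1)
    rcases hl with rfl | rfl <;> (rw [hD]; linarith)
  have key : ∀ l l' i, (l', i) ≠ ((l, 0) : Fin 2 × ℤ) → D ≤ dist (ζ l' i) (ζ l 0) := by
    intro l l' i hne
    by_cases hi : (I : ℤ) ≤ |i|
    · have h1 := hI l' i hi
      have h2 := hdz l i
      have h3 := dist_triangle (z i) (ζ l' i) (ζ l 0)
      rw [dist_comm (z i) (ζ l' i)] at h3
      have h4 : min (d 0) (d 1) ≤ d l := by
        have hl : l = 0 ∨ l = 1 := by omega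
        rcases hl with rfl | rfl
        · exact min_le_left _ _
        · exact min_le_right _ _
      have h5 := hDd l
      linarith
    · push Not at hi
      rw [abs_lt] at hi
      refine (hDe l).trans (hes l _ ⟨(l', i), ⟨⟨Set.mem_univ _, ?_⟩, hne⟩, rfl⟩)
      exact ⟨hi.1.le, hi.2.le⟩
  refine ⟨D, hD0, ?_, ?_, ?_⟩
  · intro l i
    have := hdz l i
    have := hDd l
    have := hd l
    linarith
  · intro l i hi
    exact key l l i (fun hc => hi (Prod.ext_iff.1 hc).2)
  · intro l l' i hl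
    exact key l l' i (fun hc => hl (Prod.ext_iff.1 hc).1.symm)

/-- the pseudo-orbit -/
theorem pseudo (h : Loops g π z ζ) {d δ : ℝ} (hd : 0 < d) (hδ : 0 < δ)
    (hz : ∀ l i, d ≤ dist (z i) (ζ l 0)) (hs : ∀ l i, i ≠ 0 → d ≤ dist (ζ l i) (ζ l 0))
    (ho : ∀ l l' i, l ≠ l' → d ≤ dist (ζ l' i) (ζ l 0)) {I : ℕ}
    (hI : ∀ l, ∀ i : ℤ, (I : ℤ) ≤ |i| → dist (ζ l i) (z i) < δ / 2) (T : ℕ → ℕ) (ι : ℕ → Fin 2)
    (hT0 : T 0 = 0) (K : ℕ) : (∀ i < K, T i + (2 * I + 2) ≤ T (i + 1)) →
      (∀ i ≤ K, π ∣ T i) → ∀ j : Fin 2, ∃ w : ℕ → B, (∀ t, w t ∈ loopSet z ζ) ∧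
      (∀ i < K, w (T i) = ζ (ι i) 0) ∧ w (T K) = ζ j 0 ∧
      (∀ t < T K, dist (g (w t)) (w (t + 1)) < δ) ∧
      ∀ t < T K, (∀ i < K, t ≠ T i) → ∀ l, d ≤ dist (w t) (ζ l 0) := by
  induction K with
  | zero =>
    intro _ _ j
    refine ⟨fun _ => ζ j 0, fun t => Or.inr (Set.mem_iUnion.2 ⟨j, ⟨0, rfl⟩⟩), ?_, rfl, ?_, ?_⟩
    · intro i hi; omega
    · intro t ht; omega
    · intro t ht; omega
  | succ K ih =>
    intro hT hdiv j
    obtain ⟨w, w1, w2, w3, w4, w5⟩ := ih (fun i hi => hT i (by omega)) (fun i hi => hdiv i (by omega)) (ι K)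
    have hK := hT K (by omega)
    set H := (T (K + 1) - T K) / 2 with hH
    have hH1 : I + 1 ≤ H := by omega
    have hH2 : H + (I + 1) ≤ T (K + 1) - T K := by omega
    -- monotonicity
    have mono : ∀ i ≤ K, T i ≤ T K := by
      intro i hi
      induction K with
      | zero => simp_all
      | succ K _ => 
        have : ∀ m, i + m ≤ K + 1 → T i ≤ T (i + m) := by
          intro m
          induction m with
          | zero => intro _; exact le_rfl
          | succ m ihm =>
            intro hm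
            have h1 := ihm (by omega)
            have h2 := hT (i + m) (by omega)
            have h3 : i + m + 1 = i + (m + 1) := by ring
            rw [h3] at h2
            omega
        have h4 := this (K + 1 - i) (by omega)
        rwa [show i + (K + 1 - i) = K + 1 by omega] at h4
    let W : ℕ → B := fun t => if t ≤ T K then w t else
      if t < T K + H then ζ (ι K) ((t : ℤ) - T K) else ζ j ((t : ℤ) - T (K + 1))
    have W1 : ∀ t ≤ T K, W t = w t := fun t ht => if_pos ht
    have W2 : ∀ t, T K ≤ t → t < T K + H → W t = ζ (ι K) ((t : ℤ) - T K) := by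
      intro t h1 h2
      rcases eq_or_lt_of_le h1 with rfl | h1
      · rw [W1 _ le_rfl, w3]; simp
      · simp only [W]; rw [if_neg (by omega), if_pos h2]
    have W3 : ∀ t, T K + H ≤ t → W t = ζ j ((t : ℤ) - T (K + 1)) := by
      intro t h1
      simp only [W]; rw [if_neg (by omega), if_neg (by omega)]
    have e0 : z ((H : ℤ) - (T (K + 1) - T K)) = z H := by
      obtain ⟨c, hc⟩ := hdiv K (by omega)
      obtain ⟨c', hc'⟩ := hdiv (K + 1) le_rfl
      have h1 : T K < T (K + 1) := by omega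
      have h2 : (H : ℤ) - ((T (K + 1) : ℤ) - T K) = ((H : ℤ) + π * c) - π * c' := by
        rw [hc, hc']; push_cast; ring
      rw [h2, per_mul h, per_mul' h]
    refine ⟨W, ?_, ?_, ?_, ?_, ?_⟩
    · intro t
      simp only [W]
      split_ifs
      · exact w1 t
      · exact Or.inr (Set.mem_iUnion.2 ⟨_, ⟨_, rfl⟩⟩)
      · exact Or.inr (Set.mem_iUnion.2 ⟨_, ⟨_, rfl⟩⟩)
    · intro i hi
      rw [W1 _ (mono i (by omega))]
      rcases Nat.lt_or_ge i K with h1 | h1
      · exact w2 i h1
      · have : i = K := by omega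
        rw [this, w3]
    · rw [W3 _ (by omega)]; simp
    · intro t ht
      rcases Nat.lt_or_ge t (T K) with h1 | h1
      · rw [W1 t h1.le, W1 (t + 1) h1]; exact w4 t h1
      rcases Nat.lt_or_ge (t + 1) (T K + H) with h2 | h2
      · rw [W2 t h1 (by omega), W2 (t + 1) (by omega) h2, h.orb]
        have : ((t : ℤ) - T K + 1) = ((t + 1 : ℕ) : ℤ) - T K := by push_cast; ring
        rw [this, dist_self]; exact hδ
      rcases Nat.lt_or_ge t (T K + H) with h3 | h3
      · have h4 : t + 1 = T K + H := by omega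
        rw [W2 t h1 h3, W3 (t + 1) h2, h.orb]
        have e1 : ((t : ℤ) - T K + 1) = H := by omega
        have e2 : ((t + 1 : ℕ) : ℤ) - T (K + 1) = (H : ℤ) - (T (K + 1) - T K) := by omega
        rw [e1, e2]
        have d1 := hI (ι K) H (by rw [abs_of_nonneg (by positivity)]; omega)
        have d2 := hI j ((H : ℤ) - (T (K + 1) - T K)) (by
          rw [abs_of_nonpos (by omega)]; omega)
        rw [e0] at d2
        rw [dist_comm] at d2
        have := dist_triangle (ζ (ι K) H) (z H) (ζ j ((H : ℤ) - (T (K + 1) - T K)))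
        linarith
      · rw [W3 t h3, W3 (t + 1) (by omega), h.orb]
        have : ((t : ℤ) - T (K + 1) + 1) = ((t + 1 : ℕ) : ℤ) - T (K + 1) := by push_cast; ring
        rw [this, dist_self]; exact hδ
    · intro t ht hne l
      rcases Nat.lt_or_ge t (T K) with h1 | h1
      · rw [W1 t h1.le]; exact w5 t h1 (fun i hi => hne i (by omega)) l
      have h0 := hne K (by omega)
      have hnz : ∀ (l' : Fin 2) (i : ℤ), i ≠ 0 → d ≤ dist (ζ l' i) (ζ l 0) := by
        intro l' i hi
        by_cases hl : l = l'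
        · subst hl; exact hs l i hi
        · exact ho l l' i hl
      rcases Nat.lt_or_ge t (T K + H) with h3 | h3
      · rw [W2 t h1 h3]; exact hnz _ _ (by omega)
      · rw [W3 t h3]; exact hnz _ _ (by omega)

end

theorem t_BASE : S_BASE.{w} := by
  intro B _ g _ π z ζ h hsh
  obtain ⟨d, hd, hz, hs, ho⟩ := sep h
  refine ⟨fun l => ball (ζ l 0) (d / 2), fun l => isOpen_ball, fun l => mem_ball_self (by positivity), ?_, ?_⟩
  · rw [Set.disjoint_left]
    intro y h0 h1
    rw [mem_ball] at h0 h1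
    have h2 := ho 0 1 0 (by decide)
    have h3 := dist_triangle_left (ζ 1 0) (ζ 0 0) y
    linarith
  · intro W hW
    have hW' : ∀ l, ∃ e : ℝ, 0 < e ∧ ball (ζ l 0) e ⊆ W l := fun l => Metric.mem_nhds_iff.1 (hW l)
    choose e he heW using hW'
    set η := min (d / 2) (min (e 0) (e 1)) with hη
    have hη0 : 0 < η := lt_min (by positivity) (lt_min (he 0) (he 1))
    obtain ⟨δ, hδ, hsd⟩ := hsh η hη0
    obtain ⟨I, hI⟩ := far h (δ / 2) (by positivity)
    refine ⟨2 * I + 2, by omega, ?_⟩
    intro K T ι hK hT0 hT hdiv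
    obtain ⟨w, w1, w2, w3, w4, w5⟩ := pseudo h hd hδ hz hs ho hI T ι hT0 K hT hdiv (ι 0)
    -- monotonicity
    have mono : ∀ i, i < K → T i < T K := by
      intro i hi
      have : ∀ m, i + (m + 1) ≤ K → T i < T (i + (m + 1)) := by
        intro m
        induction m with
        | zero => intro h1; have := hT i (by omega); simp only [zero_add]; omega
        | succ m ihm =>
          intro hm
          have h1 := ihm (by omega)
          have h2 := hT (i + (m + 1)) (by omega)
          have h3 : i + (m + 1) + 1 = i + (m + 1 + 1) := by ring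
          rw [h3] at h2
          omega
      have h4 := this (K - i - 1) (by omega)
      rwa [show i + (K - i - 1 + 1) = K by omega] at h4
    have hm : 1 ≤ T K := by have := mono 0 (by omega); omega
    have hw0 : w (T K) = w 0 := by
      rw [w3]; have := w2 0 (by omega); rw [hT0] at this; exact this.symm
    obtain ⟨p, hp, hps⟩ := hsd (T K) w hm hw0 w1 w4
    refine ⟨p, hp, ?_, ?_⟩
    · intro i hi
      apply heW
      rw [mem_ball, ← w2 i hi]
      refine lt_of_lt_of_le (hps (T i) (mono i hi)) ?_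
      have hl : ι i = 0 ∨ ι i = 1 := by omega
      have h1 := min_le_right (d / 2) (min (e 0) (e 1))
      rcases hl with hl | hl <;> rw [hl]
      · exact h1.trans (min_le_left _ _)
      · exact h1.trans (min_le_right _ _)
    · intro t ht hne l hmem
      rw [mem_ball] at hmem
      have h1 := w5 t ht hne l
      have h2 := hps t ht
      have h3 : η ≤ d / 2 := min_le_left _ _
      have h4 := dist_triangle_left (w t) (ζ l 0) (g^[t] p)
      linarith

end Run7.h903.PR
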