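import Pool.Agent.Run7.h619.PR.Iface
import Pool.Agent.Run7.h619.AX.Prod

/-!
# Piece NH of helper619's project PR: a periodic point with the eigenvalue `1` in the fibre direction is
not hyperbolic
-/

set_option autoImplicit false
set_option linter.unusedSectionVars false

open Filter Set Metric
open scoped Manifold ContDiff Topology

universe u v w

namespace Run7.h903.PR

open Pool.Agent.H718R2.G Pool.Agent.TH80.OMS Run7.h619.LA Pool.Agent.Y504.CO Run7.h619.AX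

theorem noBdd_fibre_at {k b n : ℕ} {M B : Type*} {N : Type u} [TopologicalSpace M]
    [ChartedSpace (V k) M] [IsManifold (𝓡 k) ∞ M]
    [TopologicalSpace B] [ChartedSpace (V b) B] [IsManifold (𝓡 b) ∞ B] [TopologicalSpace N]
    [ChartedSpace (V n) N] [IsManifold (𝓡 n) ∞ N] (Θ : Run7.h619.AX.PDiff k b n M B N) {F : N → N}
    (hF : ContMDiff (𝓡 n) (𝓡 n) 1 F) {m : ℕ} (hm : 1 ≤ m)
    {A : M → M} {x : M} (hA : MDifferentiableAt (𝓡 k) (𝓡 k) A x) (hx : A x = x) {y : B}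
    (hmap : ∀ x, F^[m] (Θ (x, y)) = Θ (A x, y)) (hyp : HypAt n F (Θ (x, y))) (w : ℤ → V k)
    (hb : ∃ C : ℝ, ∀ i, ‖w i‖ ≤ C) (hw : ∀ i, w (i + 1) = Dv k k A x (w i)) (i : ℤ) : w i = 0 := by
  obtain ⟨p, hp⟩ : ∃ p, p = Θ (x, y) := ⟨_, rfl⟩
  have hFm : ContMDiff (𝓡 n) (𝓡 n) 1 (F^[m]) := by
    clear hyp hmap hm
    induction m with
    | zero => exact contMDiff_id
    | succ m ih =>
      rw [Function.iterate_succ']
      exact hF.comp ih
  have hFmd : MDifferentiable (𝓡 n) (𝓡 n) (F^[m]) := hFm.mdifferentiable (by simp)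
  have hfix : F^[m] p = p := by rw [hp, hmap, hx]
  rw [← hp] at hyp
  obtain ⟨ψ, hψ⟩ : ∃ ψ, ψ = chartAt (V n) p := ⟨_, rfl⟩
  have hpψ : p ∈ ψ.source := by rw [hψ]; exact mem_chart_source _ _
  have hatl : ψ ∈ atlas (V n) N := by rw [hψ]; exact chart_mem_atlas _ _
  have hmax : ψ ∈ IsManifold.maximalAtlas (𝓡 n) ∞ N := by
    rw [hψ]
    exact IsManifold.chart_mem_maximalAtlas p
  have hnb := hyp m hm hfix ψ hmax hpψ
  have hψd : MDifferentiableAt (𝓡 n) (𝓡 n) ψ p := mdifferentiableAt_atlas hatl hpψ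
  have hψsd : MDifferentiableAt (𝓡 n) (𝓡 n) ψ.symm (ψ p) :=
    mdifferentiableAt_atlas_symm hatl (ψ.map_source hpψ)
  have hsymm : ψ.symm (ψ p) = p := ψ.left_inv hpψ
  have hinc : MDifferentiable (𝓡 k) (𝓡 n) (fun x : M => Θ (x, y)) := by
    have h1 : ContMDiff (𝓡 k) ((𝓡 k).prod (𝓡 b)) ∞ (fun x : M => (x, y)) :=
      contMDiff_id.prodMk contMDiff_const
    exact (Θ.contMDiff.comp h1).mdifferentiable (by simp)
  obtain ⟨j, hj⟩ : ∃ j : M → V n, j = fun x => ψ (Θ (x, y)) := ⟨_, rfl⟩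
  have hjx : j x = ψ p := by rw [hj, hp]
  have hjd : MDifferentiableAt (𝓡 k) (𝓡 n) j x := by
    have h1 : MDifferentiableAt (𝓡 n) (𝓡 n) ψ ((fun x : M => Θ (x, y)) x) := by
      show MDifferentiableAt (𝓡 n) (𝓡 n) ψ (Θ (x, y))
      rw [← hp]
      exact hψd
    rw [hj]
    exact MDifferentiableAt.comp x h1 (hinc x)
  obtain ⟨T, hT⟩ : ∃ T : V n → V n, T = fun v => ψ (F^[m] (ψ.symm v)) := ⟨_, rfl⟩
  have hTd : MDifferentiableAt (𝓡 n) (𝓡 n) T (j x) := by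
    rw [hjx, hT]
    have h1 : MDifferentiableAt (𝓡 n) (𝓡 n) (fun v => F^[m] (ψ.symm v)) (ψ p) :=
      MDifferentiableAt.comp (ψ p) (hFmd _) hψsd
    have h2 : MDifferentiableAt (𝓡 n) (𝓡 n) ψ ((fun v => F^[m] (ψ.symm v)) (ψ p)) := by
      show MDifferentiableAt (𝓡 n) (𝓡 n) ψ (F^[m] (ψ.symm (ψ p)))
      rw [hsymm, hfix]
      exact hψd
    exact MDifferentiableAt.comp (ψ p) h2 h1
  have hev : ∀ᶠ x' in 𝓝 x, Θ (x', y) ∈ ψ.source := by
    have h1 : ContinuousAt (fun x' : M => Θ (x', y)) x := (hinc x).continuousAt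
    apply h1.eventually
    show ∀ᶠ z in 𝓝 (Θ (x, y)), z ∈ ψ.source
    rw [← hp]
    exact ψ.open_source.mem_nhds hpψ
  -- the conjugacy
  have hconj : Dv k n (T ∘ j) x = Dv k n (j ∘ A) x := by
    have h1 : T ∘ j =ᶠ[𝓝 x] j ∘ A := by
      filter_upwards [hev] with x' hx'
      rw [hT, hj]
      show ψ (F^[m] (ψ.symm (ψ (Θ (x', y))))) = ψ (Θ (A x', y))
      rw [ψ.left_inv hx', hmap]
    exact h1.mfderiv_eq
  have h1 := Dv_comp (n := k) (k := n) (l := n) x hTd hjd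
  have h2 := Dv_comp (n := k) (k := k) (l := n) x (f := A) (g := j) (by rw [hx]; exact hjd) hA
  rw [h1, h2, hx, hjx] at hconj
  have hTf : Dv n n T (ψ p) = fderiv ℝ (fun v => ψ (F^[m] (ψ.symm v))) (ψ p) := by
    rw [hT]
    exact mfderiv_eq_fderiv
  rw [← hTf] at hnb
  -- injectivity
  have hinj : ∀ v, Dv k n j x v = 0 → v = 0 := by
    intro v hv
    obtain ⟨g, hg⟩ : ∃ g : V n → M, g = fun v => pr1 Θ (ψ.symm v) := ⟨_, rfl⟩
    have hgd : MDifferentiableAt (𝓡 n) (𝓡 k) g (j x) := by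
      rw [hjx, hg]
      exact MDifferentiableAt.comp (g := pr1 Θ) (f := ψ.symm) (ψ p) (pr1_diff Θ _) hψsd
    have h3 : g ∘ j =ᶠ[𝓝 x] id := by
      filter_upwards [hev] with x' hx'
      rw [hg, hj]
      show pr1 Θ (ψ.symm (ψ (Θ (x', y)))) = x'
      rw [ψ.left_inv hx', pr1_apply]
    have h4 : Dv k k (g ∘ j) x = Dv k k (id : M → M) x := h3.mfderiv_eq
    rw [Dv_comp (n := k) (k := n) (l := k) x hgd hjd, Dv_id] at h4
    have h5 := congrArg (fun L => L v) h4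
    have h6 : Dv n k g (j x) (Dv k n j x v) = v := h5
    rw [← h6, hv, map_zero]
  apply hinj
  obtain ⟨C, hC⟩ := hb
  have h3 := hnb (fun i => Dv k n j x (w i)) ⟨‖Dv k n j x‖ * C, fun i =>
    ((Dv k n j x).le_opNorm _).trans (mul_le_mul_of_nonneg_left (hC i) (norm_nonneg _))⟩ (by
    intro i
    show Dv k n j x (w (i + 1)) = Dv n n T (ψ p) (Dv k n j x (w i))
    rw [hw i]
    exact (congrArg (fun L => L (w i)) hconj).symm) i
  exact h3


theorem t_NH : Run7.h619.PR.S_NH.{u, v, w} := by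
  intro k b n M B N _ _ _ _ _ _ _ _ _ _ _ _ _ _ r hr Θ G T H x₀ y w hT hmap hd hx hw hfix hyp
  have hG : ContMDiff (𝓡 n) (𝓡 n) 1 G := G.contMDiff.of_le (by exact_mod_cast hr)
  exact hw (noBdd_fibre_at Θ hG hT hd hx hmap hyp (fun _ => w) ⟨‖w‖, fun _ => le_rfl⟩
    (fun _ => hfix.symm) 0)

end Run7.h903.PR
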