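import Pool.Agent.Run7.h619.PR.Iface

/-!
# Piece PERT of helper619's project PR: perturbations of `F = f × g` in the fibres over small sets
-/

set_option autoImplicit false
set_option linter.unusedSectionVars false

open Filter Set Metric
open scoped Manifold ContDiff Topology

universe u v w

namespace Run7.h903.PR

open Pool.Agent.H718R2.G Pool.Agent.TH80.OMS Pool.Agent.Y504.CO Run7.h619.AA Run7.h619.PR
open Pool.Agent.W564.SC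

theorem bump {b : ℕ} {B : Type w} [MetricSpace B] [CompactSpace B] [ChartedSpace (V b) B]
    [IsManifold (𝓡 b) ∞ B] (p : B) (O : Set B) (hO : IsOpen O) (hp : p ∈ O) :
    ∃ (β : B → ℝ) (W : Set B), ContMDiff (𝓡 b) 𝓘(ℝ, ℝ) ∞ β ∧ W ∈ 𝓝 p ∧ W ⊆ O ∧
      (∀ y ∈ W, β y = 1) ∧ (∀ y, y ∉ O → β y = 0) := by
  obtain ⟨f, h1, h2, -⟩ := exists_contMDiffMap_one_nhds_of_subset_interior (𝓡 b) (n := (⊤ : ℕ∞))
    (s := ({p} : Set B)) (t := O) isClosed_singleton (by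
      rw [hO.interior_eq]; exact Set.singleton_subset_iff.2 hp)
  rw [nhdsSet_singleton] at h1
  refine ⟨f, {y | f y = 1} ∩ O, f.contMDiff, inter_mem h1 (hO.mem_nhds hp), inter_subset_right,
    fun y hy => hy.1, h2⟩

section

variable {k b n j : ℕ} {M : Type v} {B : Type w} {N : Type u} [TopologicalSpace M]
  [ChartedSpace (V k) M] [IsManifold (𝓡 k) ∞ M] [TopologicalSpace B]
  [ChartedSpace (V b) B] [IsManifold (𝓡 b) ∞ B] [TopologicalSpace N]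
  [ChartedSpace (V n) N] [IsManifold (𝓡 n) ∞ N] (Θ : PDiff k b n M B N)

/-- a fibre map with the jump `β y • c` of the parameter -/
theorem step_smooth {τ : V j → M → M}
    (hτ : ContMDiff ((𝓡 j).prod (𝓡 k)) (𝓡 k) ∞ (fun q : V j × M => τ q.1 q.2))
    {β : B → ℝ} (hβ : ContMDiff (𝓡 b) 𝓘(ℝ, ℝ) ∞ β) (l : Fin 2) :
    ContMDiff (𝓘(ℝ, Fin 2 → V j).prod ((𝓡 k).prod (𝓡 b))) (𝓡 k) ∞
      (fun q : (Fin 2 → V j) × (M × B) => τ (β q.2.2 • q.1 l) q.2.1) := by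
  have h1 : ContMDiff (𝓘(ℝ, Fin 2 → V j).prod ((𝓡 k).prod (𝓡 b))) 𝓘(ℝ, Fin 2 → V j) ∞
      (fun q : (Fin 2 → V j) × (M × B) => q.1) := contMDiff_fst
  have h2 : ContMDiff (𝓘(ℝ, Fin 2 → V j).prod ((𝓡 k).prod (𝓡 b))) ((𝓡 k).prod (𝓡 b)) ∞
      (fun q : (Fin 2 → V j) × (M × B) => q.2) := contMDiff_snd
  have h3 : ContMDiff (𝓘(ℝ, Fin 2 → V j).prod ((𝓡 k).prod (𝓡 b))) 𝓘(ℝ, ℝ) ∞
      (fun q : (Fin 2 → V j) × (M × B) => β q.2.2) := hβ.comp (contMDiff_snd.comp h2)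
  have h4 : ContMDiff (𝓘(ℝ, Fin 2 → V j).prod ((𝓡 k).prod (𝓡 b))) 𝓘(ℝ, V j) ∞
      (fun q : (Fin 2 → V j) × (M × B) => q.1 l) := by
    have e : ContDiff ℝ ∞ (fun a : Fin 2 → V j => a l) := contDiff_apply ℝ (V j) l
    exact e.contMDiff.comp h1
  have h5 : ContMDiff (𝓘(ℝ, Fin 2 → V j).prod ((𝓡 k).prod (𝓡 b))) (𝓡 j) ∞
      (fun q : (Fin 2 → V j) × (M × B) => β q.2.2 • q.1 l) := by
    have e1 : ContMDiff (𝓘(ℝ, Fin 2 → V j).prod ((𝓡 k).prod (𝓡 b))) 𝓘(ℝ, ℝ × V j) ∞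
        (fun q : (Fin 2 → V j) × (M × B) => ((β q.2.2, q.1 l) : ℝ × V j)) := h3.prodMk_space h4
    have e2 : ContDiff ℝ ∞ (fun z : ℝ × V j => z.1 • z.2) := contDiff_fst.smul contDiff_snd
    exact e2.contMDiff.comp e1
  have h6 : ContMDiff (𝓘(ℝ, Fin 2 → V j).prod ((𝓡 k).prod (𝓡 b))) ((𝓡 j).prod (𝓡 k)) ∞
      (fun q : (Fin 2 → V j) × (M × B) => ((β q.2.2 • q.1 l, q.2.1) : V j × M)) :=
    h5.prodMk (contMDiff_fst.comp h2)
  exact hτ.comp h6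

/-- two jumps -/
theorem two_smooth {τ σ : V j → M → M}
    (hτ : ContMDiff ((𝓡 j).prod (𝓡 k)) (𝓡 k) ∞ (fun q : V j × M => τ q.1 q.2))
    (hσ : ContMDiff ((𝓡 j).prod (𝓡 k)) (𝓡 k) ∞ (fun q : V j × M => σ q.1 q.2))
    {β γ : B → ℝ} (hβ : ContMDiff (𝓡 b) 𝓘(ℝ, ℝ) ∞ β) (hγ : ContMDiff (𝓡 b) 𝓘(ℝ, ℝ) ∞ γ)
    (l l' : Fin 2) :
    ContMDiff (𝓘(ℝ, Fin 2 → V j).prod ((𝓡 k).prod (𝓡 b))) (𝓡 k) ∞
      (fun q : (Fin 2 → V j) × (M × B) => τ (β q.2.2 • q.1 l) (σ (γ q.2.2 • q.1 l') q.2.1)) := by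
  have h1 : ContMDiff (𝓘(ℝ, Fin 2 → V j).prod ((𝓡 k).prod (𝓡 b)))
      (𝓘(ℝ, Fin 2 → V j).prod ((𝓡 k).prod (𝓡 b))) ∞
      (fun q : (Fin 2 → V j) × (M × B) =>
        ((q.1, (σ (γ q.2.2 • q.1 l') q.2.1, q.2.2)) : (Fin 2 → V j) × (M × B))) :=
    contMDiff_fst.prodMk ((step_smooth hσ hγ l').prodMk (contMDiff_snd.comp contMDiff_snd))
  exact (step_smooth hτ hβ l).comp h1

/-- transport to `N` -/
theorem fam_smooth {φ : (Fin 2 → V j) → M → B → M}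
    (hφ : ContMDiff (𝓘(ℝ, Fin 2 → V j).prod ((𝓡 k).prod (𝓡 b))) (𝓡 k) ∞
      (fun q : (Fin 2 → V j) × (M × B) => φ q.1 q.2.1 q.2.2)) :
    ContMDiff (𝓘(ℝ, Fin 2 → V j).prod (𝓡 n)) (𝓡 n) ∞
      (fun q : (Fin 2 → V j) × N =>
        Θ (φ q.1 (Θ.symm q.2).1 (Θ.symm q.2).2, (Θ.symm q.2).2)) := by
  have h1 : ContMDiff (𝓘(ℝ, Fin 2 → V j).prod (𝓡 n)) ((𝓡 k).prod (𝓡 b)) ∞
      (fun q : (Fin 2 → V j) × N => Θ.symm q.2) := Θ.symm.contMDiff.comp contMDiff_snd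
  have h2 : ContMDiff (𝓘(ℝ, Fin 2 → V j).prod (𝓡 n))
      (𝓘(ℝ, Fin 2 → V j).prod ((𝓡 k).prod (𝓡 b))) ∞
      (fun q : (Fin 2 → V j) × N => ((q.1, Θ.symm q.2) : (Fin 2 → V j) × (M × B))) :=
    contMDiff_fst.prodMk h1
  exact Θ.contMDiff.comp ((hφ.comp h2).prodMk (contMDiff_snd.comp h1))

theorem slice_smooth {H : (Fin 2 → V j) → N → N}
    (hH : ContMDiff (𝓘(ℝ, Fin 2 → V j).prod (𝓡 n)) (𝓡 n) ∞
      (fun q : (Fin 2 → V j) × N => H q.1 q.2)) (a : Fin 2 → V j) :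
    ContMDiff (𝓡 n) (𝓡 n) ∞ (H a) :=
  hH.comp (contMDiff_const.prodMk contMDiff_id)

end

theorem t_PERT : S_PERT.{u, v, w} := by
  intro k b n M B N _ _ _ _ _ _ _ _ _ _ _ _ _ _ r hr Θ f g F hF U hU hFU p O hO hp hd
  choose β W hβ hW hWO hW1 hβ0 using fun l => bump (b := b) (p l) (O l) (hO l) (hp l)
  refine ⟨W, hW, ?_⟩
  intro j τ τ' hτ
  -- the family
  have s1 := fam_smooth Θ (φ := fun a x y => τ 0 (β 0 y • a 0) (τ 1 (β 1 y • a 1) x))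
    (two_smooth (hτ 0).smooth (hτ 1).smooth (hβ 0) (hβ 1) 0 1)
  have s2 := fam_smooth Θ (φ := fun a x y => τ' 1 (β 1 y • a 1) (τ' 0 (β 0 y • a 0) x))
    (two_smooth (hτ 1).smooth' (hτ 0).smooth' (hβ 1) (hβ 0) 1 0)
  let φ : (Fin 2 → V j) → M → B → M := fun a x y => τ 0 (β 0 y • a 0) (τ 1 (β 1 y • a 1) x)
  let φ' : (Fin 2 → V j) → M → B → M := fun a x y => τ' 1 (β 1 y • a 1) (τ' 0 (β 0 y • a 0) x)
  have hr' : (r : WithTop ℕ∞) ≤ ∞ := by exact_mod_cast le_top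
  have t1 : ∀ a, ContMDiff (𝓡 n) (𝓡 n) r
      (fun z : N => Θ (φ a (Θ.symm z).1 (Θ.symm z).2, (Θ.symm z).2)) := fun a =>
    (slice_smooth (H := fun a z => Θ (φ a (Θ.symm z).1 (Θ.symm z).2, (Θ.symm z).2)) s1 a).of_le hr'
  have t2 : ∀ a, ContMDiff (𝓡 n) (𝓡 n) r
      (fun z : N => Θ (φ' a (Θ.symm z).1 (Θ.symm z).2, (Θ.symm z).2)) := fun a =>
    (slice_smooth (H := fun a z => Θ (φ' a (Θ.symm z).1 (Θ.symm z).2, (Θ.symm z).2)) s2 a).of_le hr'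
  let D : (Fin 2 → V j) → DiffM n N r := fun a =>
    { toFun := fun z => Θ (φ a (Θ.symm z).1 (Θ.symm z).2, (Θ.symm z).2)
      invFun := fun z => Θ (φ' a (Θ.symm z).1 (Θ.symm z).2, (Θ.symm z).2)
      left_inv := by
        intro z
        simp only [Diffeomorph.symm_apply_apply, φ, φ', (hτ 0).inv, (hτ 1).inv]
        exact Θ.apply_symm_apply z
      right_inv := by
        intro z
        simp only [Diffeomorph.symm_apply_apply, φ, φ', (hτ 0).inv', (hτ 1).inv']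
        exact Θ.apply_symm_apply z
      contMDiff_toFun := t1 a
      contMDiff_invFun := t2 a }
  let H : (Fin 2 → V j) → DiffM n N r := fun a => (D a).trans F
  have hH : ∀ a x y, H a (Θ.pt x y) = Θ.pt (f (φ a x y)) (g y) := by
    intro a x y
    show F (Θ (φ a (Θ.symm (Θ (x, y))).1 (Θ.symm (Θ (x, y))).2, (Θ.symm (Θ (x, y))).2)) = _
    rw [Diffeomorph.symm_apply_apply]
    exact hF (φ a x y) y
  have hH0 : H 0 = F := by
    ext z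
    have e : Θ.pt (Θ.symm z).1 (Θ.symm z).2 = z := Θ.apply_symm_apply z
    rw [← e, hH, hF]
    simp only [φ, Pi.zero_apply, smul_zero, (hτ 0).zero, (hτ 1).zero]
  have hfam : IsFam n N r H := by
    intro y
    exact ((F.contMDiff.comp (s1.of_le hr')).contMDiffAt)
  -- the conclusion for a parameter with `H a ∈ U`
  have fin : ∀ a : Fin 2 → V j, H a ∈ U → ∃ (G : DiffM n N r) (Φ : B → M → M), G ∈ U ∧
      IsSk Θ f g Φ G ∧ (∀ y, (∀ l, y ∉ O l) → ∀ x, Φ y x = x) ∧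
      (∀ l, ∀ y ∈ W l, ∀ x, Φ y x = τ l (a l) x) := by
    intro a ha
    refine ⟨H a, fun y x => φ a x y, ha, fun x y => hH a x y, ?_, ?_⟩
    · intro y hy x
      show τ 0 (β 0 y • a 0) (τ 1 (β 1 y • a 1) x) = x
      rw [hβ0 0 y (hy 0), hβ0 1 y (hy 1), zero_smul, zero_smul, (hτ 0).zero, (hτ 1).zero]
    · intro l y hy x
      show τ 0 (β 0 y • a 0) (τ 1 (β 1 y • a 1) x) = τ l (a l) x
      have hl : l = 0 ∨ l = 1 := by omega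
      rcases hl with rfl | rfl
      · have h1 : y ∉ O 1 := fun h => Set.disjoint_left.1 hd (hWO 0 hy) h
        rw [hW1 0 y hy, hβ0 1 y h1, zero_smul, one_smul, (hτ 1).zero]
      · have h1 : y ∉ O 0 := fun h => Set.disjoint_left.1 hd h (hWO 1 hy)
        rw [hW1 1 y hy, hβ0 0 y h1, zero_smul, one_smul, (hτ 0).zero]
  rcases isEmpty_or_nonempty N with hN | ⟨⟨z⟩⟩
  · refine ⟨1, one_pos, fun a _ => fin a ?_⟩
    have : H a = F := by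
      ext z
      exact hN.elim z
    rw [this]
    exact hFU
  · obtain ⟨κ, hκ, h⟩ := Pool.Agent.TH80.CLX.fam_mem r hr H hfam z U hU (by rw [hH0]; exact hFU)
    refine ⟨κ, hκ, fun a ha => fin a (h a ?_)⟩
    rw [pi_norm_lt_iff hκ]
    exact ha

end Run7.h903.PR
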